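import Pool.Agent.Helper16.CZ.Stmts
import Pool.Agent.Helper16.BZ.Fin

/-!
The last step: from the statements of the modules to the hand-in.
-/

open Finset Filter MeasureTheory Topology
open scoped ArithmeticFunction.Moebius

namespace Pool.Agent.Helper16.CZ

open Pool.Agent.Helper16.BZ (Good ST_THB ST_AHO ST_AMP ST_AGR ST_AEQ ST_PDC ST_XGR2 ST_CSP2)
open Pool.Agent.Helper40.Mob (TwistedDisjoint)
open Pool.Agent.Helper16.CZP (Base)

universe u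

theorem fin_good (hTHB : ST_THB) (hAHO : ST_AHO) (hAMP : ST_AMP) (hAGR : ST_AGR) (hAEQ : ST_AEQ)
    (hPDC : ST_PDC) (hCFN : ST_CFN) (hTHO : ST_THO) (hTMP : ST_TMP) (hTGR : ST_TGR)
    (hTEQ : ST_TEQ) (hTPD : ST_TPD) {r : ℕ}
    (S : C(UnitAddTorus (Fin r), UnitAddTorus (Fin r))) (h : Base S) : Good S := by
  rcases h with ⟨A, β, hA⟩ | ⟨lev, D, f, hT⟩
  · have h1 : BZP.Min A β := ⟨hA.1, hA.2.1⟩
    have h2 : (S : UnitAddTorus (Fin r) → UnitAddTorus (Fin r)) = BZP.aff A β := by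
      funext x i
      exact hA.2.2 x i
    rw [h2]
    exact BZ.fin_good hTHB hAHO hAMP hAGR hAEQ hPDC A β h1
  · obtain ⟨ψ, hψ⟩ := hCFN r lev D f S hT
    obtain ⟨S', hS'⟩ := hTHO r lev D ψ S hψ
    intro d φ v u x hφ hL hv
    have h1 := hTHB _ S' (AZ.mm r) d φ v u x (by rw [hS']; exact hTMP r lev D ψ S hψ)
      (by rw [hS']; exact hTEQ r lev D ψ S hψ) (by rw [hS']; exact hTGR r lev D ψ S hψ)
      (by rw [hS']; exact hTPD r lev D ψ S hψ) hφ hL hv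
    rw [hS'] at h1
    exact h1

theorem fin_one (hXGR : ST_XGR2) (hgood : ∀ {r : ℕ}
    (S : C(UnitAddTorus (Fin r), UnitAddTorus (Fin r))), Base S → Good S)
    (r d : ℕ) (G : Subgroup (Matrix.unitaryGroup (Fin d) ℂ))
    (S : C(UnitAddTorus (Fin r), UnitAddTorus (Fin r))) (Φ : C(UnitAddTorus (Fin r), G))
    (hG : IsClosed (G : Set (Matrix.unitaryGroup (Fin d) ℂ))) (hS : Base S)
    (hL : CZP.LMM (fun x => ((Φ x : Matrix.unitaryGroup (Fin d) ℂ) : Matrix (Fin d) (Fin d) ℂ)))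
    (F : C(UnitAddTorus (Fin r) × G, ℂ)) (y : UnitAddTorus (Fin r) × G) :
    Tendsto (fun N : ℕ => (∑ n ∈ Finset.Icc 1 N, (μ n : ℂ) * F ((CZP.SKG G S Φ)^[n] y)) /
      (N : ℂ)) atTop (𝓝 0) :=
  hXGR _ d G S Φ hG (hgood S hS) hL F y

theorem fin_two (hCSP : ST_CSP2.{u}) (hgood : ∀ {r : ℕ}
    (S : C(UnitAddTorus (Fin r), UnitAddTorus (Fin r))), Base S → Good S)
    (B : Type u) [CStarAlgebra B] (r : ℕ) (S : C(UnitAddTorus (Fin r), UnitAddTorus (Fin r)))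
    (α : B →⋆ₐ[ℂ] B) (π : C(UnitAddTorus (Fin r), ℂ) →⋆ₐ[ℂ] B)
    (hS : Base S) (hr : CZP.Rot S α π) (a : B)
    (ha : a ∈ closure ((Submodule.span ℂ {x : B | ∃ (d : ℕ)
      (Φ : C(UnitAddTorus (Fin r), Matrix (Fin d) (Fin d) ℂ)) (v : Fin d → B),
      CZP.Fam α π Φ v ∧ ∃ (f : C(UnitAddTorus (Fin r), ℂ)) (i : Fin d), π f * v i = x} :
      Submodule ℂ B) : Set B)) : TwistedDisjoint α a :=
  hCSP B _ S α π (hgood S hS) hr a ha

end Pool.Agent.Helper16.CZ
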