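import Mathlib
import Pool.Agent.Helper40.Free.FDefs

/-!
Definitions used in the statement on group extensions of distal transformations of the torus.
-/

namespace Pool.Agent.Helper16.CZP

universe u

/-- `S` is the affine transformation `x ↦ A x + β` of the torus, where `A` is unipotent and no
character `X ≠ 0` of the torus with `X A = X` is equal to `1` at `β` (for unipotent `A` this means
that `S` is minimal) -/
def Affine {r : ℕ} (A : Matrix (Fin r) (Fin r) ℤ) (β : UnitAddTorus (Fin r))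
    (S : C(UnitAddTorus (Fin r), UnitAddTorus (Fin r))) : Prop :=
  (A - 1) ^ r = 0 ∧
  (∀ X : Fin r → ℤ, X ≠ 0 → Matrix.vecMul X A = X → ∑ i, X i • β i ≠ 0) ∧
  ∀ x i, S x i = (∑ j, A i j • x j) + β i

/-- `S` is a tower of extensions as in Furstenberg's paper of 1961: the coordinates `i` of the torus
have levels `lev i`, and `S` is given modulo `1` by `t i ↦ t i + ∑ j, D i j * t j + f i t` with an
integer matrix `D` and continuously differentiable functions `f i` of period `1`, both involving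
only coordinates of level less than `lev i`; the rotation on the coordinates of level `0` is
minimal, and for every integer vector `X ≠ 0` supported on the coordinates of level `ℓ + 1` the
vector `X D` has a nonzero entry at a coordinate of level `ℓ` -/
def Tower {r : ℕ} (lev : Fin r → ℕ) (D : Matrix (Fin r) (Fin r) ℤ)
    (f : Fin r → (Fin r → ℝ) → ℝ) (S : C(UnitAddTorus (Fin r), UnitAddTorus (Fin r))) : Prop :=
  (∀ i, ContDiff ℝ 1 (f i)) ∧
  (∀ i t j, f i (t + Pi.single j 1) = f i t) ∧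
  (∀ i t s, (∀ j, lev j < lev i → t j = s j) → f i t = f i s) ∧
  (∀ i j, D i j ≠ 0 → lev j < lev i) ∧
  (∀ (t : Fin r → ℝ) i, S (fun j => (t j : UnitAddCircle)) i =
    ((t i + (∑ j, (D i j : ℝ) * t j) + f i t : ℝ) : UnitAddCircle)) ∧
  (∀ X : Fin r → ℤ, X ≠ 0 → (∀ j, X j ≠ 0 → lev j = 0) →
    ∀ n : ℤ, ∑ j, (X j : ℝ) * f j 0 ≠ n) ∧
  (∀ (ℓ : ℕ) (X : Fin r → ℤ), X ≠ 0 → (∀ j, X j ≠ 0 → lev j = ℓ + 1) →
    ∃ j, lev j = ℓ ∧ Matrix.vecMul X D j ≠ 0)

/-- the transformations of the torus which are considered -/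
def Base {r : ℕ} (S : C(UnitAddTorus (Fin r), UnitAddTorus (Fin r))) : Prop :=
  (∃ A β, Affine A β S) ∨ ∃ lev D f, Tower lev D f S

/-- every entry of the matrix valued function `Φ` on the torus has a modulus of continuity `ω`
with `ω(t) log(1/t) → 0` for `t → 0` -/
def LMM {r : ℕ} {ι : Type} (Φ : UnitAddTorus (Fin r) → Matrix ι ι ℂ) : Prop :=
  ∀ i j, ∀ ε : ℝ, 0 < ε → ∃ t₀ : ℝ, 0 < t₀ ∧ t₀ < 1 ∧ ∀ t : ℝ, 0 < t → t ≤ t₀ →
    ∀ x y : UnitAddTorus (Fin r), dist x y ≤ t → ‖Φ x i j - Φ y i j‖ ≤ ε / (-Real.log t)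

/-- the skew product `(x, g) ↦ (S x, Φ(x) g)` -/
noncomputable def SKG {r d : ℕ} (G : Subgroup (Matrix.unitaryGroup (Fin d) ℂ))
    (S : C(UnitAddTorus (Fin r), UnitAddTorus (Fin r))) (Φ : C(UnitAddTorus (Fin r), G)) :
    UnitAddTorus (Fin r) × G → UnitAddTorus (Fin r) × G := fun y => (S y.1, Φ y.1 * y.2)

/-- on the image of the functions on the torus the endomorphism `α` acts as the composition
with `S` -/
def Rot {B : Type u} [CStarAlgebra B] {r : ℕ}
    (S : C(UnitAddTorus (Fin r), UnitAddTorus (Fin r))) (α : B →⋆ₐ[ℂ] B)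
    (π : C(UnitAddTorus (Fin r), ℂ) →⋆ₐ[ℂ] B) : Prop :=
  ∀ f : C(UnitAddTorus (Fin r), ℂ), α (π f) = π (f.comp S)

/-- `Φ` is a continuous function from the torus to the unitary group with the modulus of continuity
`LMM` and `α (v i) = ∑ j, π (Φ i j) * v j` -/
def Fam {B : Type u} [CStarAlgebra B] {r : ℕ} (α : B →⋆ₐ[ℂ] B)
    (π : C(UnitAddTorus (Fin r), ℂ) →⋆ₐ[ℂ] B) {ι : Type} [Fintype ι] [DecidableEq ι]
    (Φ : C(UnitAddTorus (Fin r), Matrix ι ι ℂ)) (v : ι → B) : Prop :=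
  (∀ x, Φ x ∈ Matrix.unitaryGroup ι ℂ) ∧ LMM (fun x => Φ x) ∧
  ∀ i, α (v i) = ∑ j, π ⟨fun x => Φ x i j, by fun_prop⟩ * v j

end Pool.Agent.Helper16.CZP
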