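import Pool.Agent.Helper16.BZ.Stmts
import Pool.Agent.Helper16.CZ.Pub

/-!
Moebius disjointness of compact group extensions of the distal systems of Furstenberg on the
torus: definitions and statements of the modules (MP_7a8f48_an). Every module proves one `ST_X`
from earlier ones, which are hypotheses of its theorem.
-/

open Finset Filter MeasureTheory Topology
open scoped ComplexConjugate InnerProductSpace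

namespace Pool.Agent.Helper16.CZ

open Pool.Agent.Helper16.AZ (T E Op mm ST_VDH ST_FPV ST_TLR)
open Pool.Agent.Helper16.BZ (EQ GR PD)
open Pool.Agent.Helper16.MD (MS PB Am RW Rich)
open UnitAddTorus (mFourier)

/-- the vector with the real number `t` at the place `j` -/
noncomputable def sg {r : ℕ} (j : Fin r) (t : ℝ) : T r := Pi.single j (t : UnitAddCircle)

/-- towers of isometric extensions of the torus (Furstenberg): `S x i = x i + (D x) i + ψ i x`,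
where `(D x) i` and `ψ i x` depend only on coordinates of lower level, `ψ i` is continuously
differentiable, the rotation on the coordinates of level zero is minimal, and for every integer
vector `X ≠ 0` of level `ℓ + 1` the vector `X D` is not zero on the coordinates of level `ℓ` -/
def Tw {r : ℕ} (lev : Fin r → ℕ) (D : Matrix (Fin r) (Fin r) ℤ) (ψ : Fin r → T r → ℝ)
    (S : T r → T r) : Prop :=
  (∃ L : ℝ, 0 ≤ L ∧ ∀ i x y, |ψ i x - ψ i y| ≤ L * dist x y) ∧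
  (∀ i j, ∃ g : T r → ℝ, Continuous g ∧ ∀ ε : ℝ, 0 < ε → ∃ δ : ℝ, 0 < δ ∧
    ∀ (x : T r) (t : ℝ), |t| ≤ δ → |ψ i (x + sg j t) - ψ i x - t * g x| ≤ ε * |t|) ∧
  (∀ i (x y : T r), (∀ j, lev j < lev i → x j = y j) → ψ i x = ψ i y) ∧
  (∀ i j, D i j ≠ 0 → lev j < lev i) ∧
  (∀ x i, S x i = x i + (∑ j, D i j • x j) + (ψ i x : UnitAddCircle)) ∧
  (∀ X : Fin r → ℤ, X ≠ 0 → (∀ j, X j ≠ 0 → lev j = 0) →
    ∀ x, ∑ j, X j • (ψ j x : UnitAddCircle) ≠ 0) ∧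
  (∀ (ℓ : ℕ) (X : Fin r → ℤ), X ≠ 0 → (∀ j, X j ≠ 0 → lev j = ℓ + 1) →
    ∃ j, lev j = ℓ ∧ Matrix.vecMul X D j ≠ 0)

/-- orthogonality for the frequencies of level at most `ℓ` -/
def Orth {r : ℕ} (lev : Fin r → ℕ) (S : T r → T r) (ℓ : ℕ) : Prop :=
  ∀ (P P' : ℕ) (X X' : Fin r → ℤ) (x x' : T r), 1 ≤ P → 1 ≤ P' →
  (∀ j, X j ≠ 0 → lev j ≤ ℓ) → (∀ j, X' j ≠ 0 → lev j ≤ ℓ) →
  (∃ j, lev j = ℓ ∧ (P : ℤ) ^ (ℓ + 1) * X j ≠ (P' : ℤ) ^ (ℓ + 1) * X' j) →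
  Tendsto (fun M : ℕ => (∑ y ∈ Icc 1 M, mFourier X (S^[P * y] x) *
    conj (mFourier X' (S^[P' * y] x'))) / (M : ℂ)) atTop (𝓝 0)

/-- the function `w ↦ e(X · (S^n w - w))` -/
noncomputable def Fn {r : ℕ} (S : T r → T r) (X : Fin r → ℤ) (n : ℕ) (w : T r) : ℂ :=
  mFourier X (S^[n] w) * conj (mFourier X w)

/-- VDC: the criterion of van der Corput. -/
def ST_VDC : Prop := ∀ a : ℕ → ℂ, (∀ y, ‖a y‖ ≤ 1) →
  (∀ ε : ℝ, 0 < ε → ∃ h₀ : ℕ, ∀ h : ℕ, h₀ ≤ h →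
    ∀ᶠ M : ℕ in atTop, ‖∑ y ∈ Icc 1 M, a (y + h) * conj (a y)‖ ≤ ε * M) →
  Tendsto (fun M : ℕ => (∑ y ∈ Icc 1 M, a y) / (M : ℂ)) atTop (𝓝 0)

/-- THO: the map is a homeomorphism. -/
def ST_THO : Prop := ∀ (r : ℕ) (lev : Fin r → ℕ) (D : Matrix (Fin r) (Fin r) ℤ)
  (ψ : Fin r → T r → ℝ) (S : T r → T r), Tw lev D ψ S → ∃ S' : T r ≃ₜ T r, ⇑S' = S

/-- TMP: the map preserves the measure. -/
def ST_TMP : Prop := ∀ (r : ℕ) (lev : Fin r → ℕ) (D : Matrix (Fin r) (Fin r) ℤ)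
  (ψ : Fin r → T r → ℝ) (S : T r → T r), Tw lev D ψ S → MeasurePreserving S (mm r) (mm r)

/-- TGR: polynomial growth. -/
def ST_TGR : Prop := ∀ (r : ℕ) (lev : Fin r → ℕ) (D : Matrix (Fin r) (Fin r) ℤ)
  (ψ : Fin r → T r → ℝ) (S : T r → T r), Tw lev D ψ S → GR S

/-- TF0: the case of level zero. -/
def ST_TF0 : Prop := ∀ (r : ℕ) (lev : Fin r → ℕ) (D : Matrix (Fin r) (Fin r) ℤ)
  (ψ : Fin r → T r → ℝ) (S : T r → T r), Tw lev D ψ S → Orth lev S 0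

/-- TFD: the function `Fn` depends only on the coordinates of level at most `ℓ`. -/
def ST_TFD : Prop := ∀ (r : ℕ) (lev : Fin r → ℕ) (D : Matrix (Fin r) (Fin r) ℤ)
  (ψ : Fin r → T r → ℝ) (S : T r → T r), Tw lev D ψ S → ∀ (ℓ : ℕ) (X : Fin r → ℤ),
  (∀ j, X j ≠ 0 → lev j ≤ ℓ + 1) → ∀ n : ℕ, Continuous (Fn S X n) ∧
  ∀ x y : T r, (∀ j, lev j ≤ ℓ → x j = y j) → Fn S X n x = Fn S X n y

/-- TEL: equidistribution for functions of the coordinates of level at most `ℓ`. -/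
def ST_TEL : Prop := ∀ (r : ℕ) (lev : Fin r → ℕ) (D : Matrix (Fin r) (Fin r) ℤ)
  (ψ : Fin r → T r → ℝ) (S : T r → T r), Tw lev D ψ S → ∀ ℓ : ℕ, (∀ k ≤ ℓ, Orth lev S k) →
  (∀ (P : ℕ) (X : Fin r → ℤ) (x : T r), 1 ≤ P → X ≠ 0 → (∀ j, X j ≠ 0 → lev j ≤ ℓ) →
    Tendsto (fun M : ℕ => (∑ y ∈ Icc 1 M, mFourier X (S^[P * y] x)) / (M : ℂ)) atTop (𝓝 0)) ∧
  ∀ (P : ℕ) (F : T r → ℂ), 1 ≤ P → Continuous F →
    (∀ x y : T r, (∀ j, lev j ≤ ℓ → x j = y j) → F x = F y) → ∀ x : T r,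
    Tendsto (fun M : ℕ => (∑ y ∈ Icc 1 M, F (S^[P * y] x)) / (M : ℂ)) atTop
      (𝓝 (∫ y, F y ∂(mm r)))

/-- TFM: the frequencies of `Fn` in the coordinates of level `ℓ` are near `n X D`. -/
def ST_TFM : Prop := ∀ (r : ℕ) (lev : Fin r → ℕ) (D : Matrix (Fin r) (Fin r) ℤ)
  (ψ : Fin r → T r → ℝ) (S : T r → T r), Tw lev D ψ S → ∀ ℓ : ℕ, (∀ k ≤ ℓ, Orth lev S k) →
  ∀ (X : Fin r → ℤ) (j : Fin r) (lam ε : ℝ), (∀ j, X j ≠ 0 → lev j ≤ ℓ + 1) → lev j = ℓ →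
  0 < lam → 0 < ε → ∃ n₀ : ℕ, ∀ n : ℕ, n₀ ≤ n → ∀ B : Finset (Fin r → ℤ),
  (∀ Y ∈ B, lam * n < |(Y j : ℝ) - n * (Matrix.vecMul X D j : ℤ)|) →
  ∑ Y ∈ B, ‖Pool.Agent.Helper16.AZ.fc (Fn S X n) Y‖ ^ 2 ≤ ε

/-- TST: the induction step. -/
def ST_TST : Prop := ∀ (r : ℕ) (lev : Fin r → ℕ) (D : Matrix (Fin r) (Fin r) ℤ)
  (ψ : Fin r → T r → ℝ) (S : T r → T r), Tw lev D ψ S → ∀ ℓ : ℕ, (∀ k ≤ ℓ, Orth lev S k) →
  Orth lev S (ℓ + 1)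

/-- TPO: orthogonality. -/
def ST_TPO : Prop := ∀ (r : ℕ) (lev : Fin r → ℕ) (D : Matrix (Fin r) (Fin r) ℤ)
  (ψ : Fin r → T r → ℝ) (S : T r → T r), Tw lev D ψ S → ∀ ℓ : ℕ, Orth lev S ℓ

/-- TEQ: equidistribution. -/
def ST_TEQ : Prop := ∀ (r : ℕ) (lev : Fin r → ℕ) (D : Matrix (Fin r) (Fin r) ℤ)
  (ψ : Fin r → T r → ℝ) (S : T r → T r), Tw lev D ψ S → EQ S (mm r)

/-- TPT: trigonometric polynomials. -/
def ST_TPT : Prop := ∀ (r : ℕ) (lev : Fin r → ℕ) (D : Matrix (Fin r) (Fin r) ℤ)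
  (ψ : Fin r → T r → ℝ) (S : T r → T r)
  (x : T r) (Q : Finset ℕ) (F : Finset (Fin r → ℤ)) (a : ℕ → (Fin r → ℤ) → ℂ) (L n₀ : ℕ)
  (τ : ℝ), Tw lev D ψ S → (∀ p ∈ Q, 1 ≤ p) → 0 ∈ F →
  (∀ p ∈ Q, ∑ X ∈ F, ‖a p X‖ ^ 2 ≤ 2) →
  (∀ p ∈ Q, ∀ F' ⊆ F, (∀ X ∈ F', ∃ j, (L : ℤ) < |X j|) → ∑ X ∈ F', ‖a p X‖ ^ 2 ≤ τ) →
  (∀ (j : Fin r) (z : ℤ), z ≠ 0 → ∀ S' ⊆ Q, (∀ p ∈ S', ∃ y : ℤ, |y| ≤ (L : ℤ) ∧
    (p : ℤ) ^ (lev j + 1) * y = z) → S'.card ≤ n₀) → ∀ ε : ℝ, 0 < ε → ∀ᶠ M : ℕ in atTop,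
  ∑ y ∈ Icc 1 M, ‖∑ p ∈ Q, ∑ X ∈ F, a p X * mFourier X (S^[p * y] x)‖ ^ 2 ≤
    (‖∑ p ∈ Q, a p 0‖ ^ 2 + 4 * n₀ * Q.card + 2 * τ * (Q.card : ℝ) ^ 2 + ε) * M

/-- TCN: primes whose powers divide an integer. -/
def ST_TCN : Prop := ∀ (i m k : ℕ) (z : ℤ), z ≠ 0 → ∀ S' ⊆ PB 1 i, (∀ p ∈ S', ∃ y : ℤ,
  |y| ≤ ((2 ^ m : ℕ) : ℤ) ∧ (p : ℤ) ^ (k + 1) * y = z) → i * S'.card ≤ (i + 1) * (k + 1) + m

/-- TPD: the tower has the property `PD`. -/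
def ST_TPD : Prop := ∀ (r : ℕ) (lev : Fin r → ℕ) (D : Matrix (Fin r) (Fin r) ℤ)
  (ψ : Fin r → T r → ℝ) (S : T r → T r), Tw lev D ψ S → PD S (mm r)

/-- C1L: periodic continuously differentiable functions. -/
def ST_C1L : Prop := ∀ (r : ℕ) (f : (Fin r → ℝ) → ℝ), ContDiff ℝ 1 f →
  (∀ t j, f (t + Pi.single j 1) = f t) → ∃ F : T r → ℝ,
  (∀ t : Fin r → ℝ, F (fun i => (t i : UnitAddCircle)) = f t) ∧
  (∃ L : ℝ, 0 ≤ L ∧ ∀ x y, |F x - F y| ≤ L * dist x y) ∧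
  ∀ j, ∃ g : T r → ℝ, Continuous g ∧ ∀ ε : ℝ, 0 < ε → ∃ δ : ℝ, 0 < δ ∧
    ∀ (x : T r) (t : ℝ), |t| ≤ δ → |F (x + sg j t) - F x - t * g x| ≤ ε * |t|

/-- CFN: from the functions on the euclidean space to the functions on the torus. -/
def ST_CFN : Prop := ∀ (r : ℕ) (lev : Fin r → ℕ) (D : Matrix (Fin r) (Fin r) ℤ)
  (f : Fin r → (Fin r → ℝ) → ℝ) (S : C(T r, T r)), Pool.Agent.Helper16.CZP.Tower lev D f S →
  ∃ ψ : Fin r → T r → ℝ, Tw lev D ψ S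

end Pool.Agent.Helper16.CZ
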