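import Pool.Agent.Helper11.CZ.TGR
import Pool.Agent.Helper13.CZ.TST
import Pool.Agent.Helper15.CZ.TPO
import Pool.Agent.Helper16.BZ.All
import Pool.Agent.Helper16.CZ.Fin
import Pool.Agent.Helper16.CZ.Stmts
import Pool.Agent.Helper24.CZ.CFN
import Pool.Agent.Helper35.CZ.TEL
import Pool.Agent.Helper42.CZ.VDC
import Pool.Agent.Helper53.CZ.C1L
import Pool.Agent.Helper6.CZ.TFM
import Pool.Agent.Helper62.CZ.TPD
import Pool.Agent.Helper71.CZ.TEQ
import Pool.Agent.Helper72.CZ.TPT
import Pool.Agent.Helper9.CZ.TCN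
import Pool.Agent.Helper9.CZ.TF0
import Pool.Agent.Helper9.CZ.TFD
import Pool.Agent.Helper93.CZ.THO
import Pool.Agent.Helper93.CZ.TMP

/-!
Assembly of the modules: compact group extensions of distal maps of the torus.
-/

namespace Pool.Agent.Helper16.CZ

theorem all_VDC : ST_VDC := st_VDC AZ.all_VDH

theorem all_THO : ST_THO := st_THO

theorem all_TMP : ST_TMP := st_TMP

theorem all_TGR : ST_TGR := st_TGR

theorem all_TF0 : ST_TF0 := st_TF0

theorem all_TFD : ST_TFD := st_TFD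

theorem all_TEL : ST_TEL := st_TEL

theorem all_TFM : ST_TFM := st_TFM all_TEL all_TFD AZ.all_FPV

theorem all_TST : ST_TST := st_TST all_VDC all_TFD all_TEL all_TFM AZ.all_FPV

theorem all_TPO : ST_TPO := st_TPO all_TF0 all_TST

theorem all_TEQ : ST_TEQ := st_TEQ all_TEL all_TPO

theorem all_TPT : ST_TPT := st_TPT all_TPO all_TEL

theorem all_TCN : ST_TCN := st_TCN

theorem all_TPD : ST_TPD := st_TPD all_TPT all_TCN AZ.all_FPV AZ.all_TLR

theorem all_C1L : ST_C1L := st_C1L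

theorem all_CFN : ST_CFN := st_CFN all_C1L

theorem all_good {r : ℕ} (S : C(UnitAddTorus (Fin r), UnitAddTorus (Fin r)))
    (h : CZP.Base S) : BZ.Good S :=
  fin_good BZ.all_THB BZ.all_AHO BZ.all_AMP BZ.all_AGR BZ.all_AEQ BZ.all_PDC all_CFN all_THO
    all_TMP all_TGR all_TEQ all_TPD S h

end Pool.Agent.Helper16.CZ
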